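import Pool.Agent.Y329.CG.Stm

/-!
# Closed walks in graphs with at most as many edges as vertices have commuting labels
-/

set_option autoImplicit false

namespace Pool.Agent.Y151.CG

open Pool.Agent.Y329.CG

section

variable {X : Type} (s : Fin 2 → Equiv.Perm X) (D : Fin 2 → Set X)

/-- A tree of active edges in `B`, with a potential `g`. -/
def Tree (B : Finset X) : Prop :=
  ∃ (T : Finset (X × Fin 2)) (g : X → F2), T.card + 1 = B.card ∧
    ∀ e ∈ T, e.1 ∈ B ∧ e.1 ∈ D e.2 ∧ s e.2 e.1 ∈ B ∧ g (s e.2 e.1) = FreeGroup.of e.2 * g e.1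

open Classical in
/-- Adding a vertex to a tree. -/
theorem Tree.insert {B : Finset X} (h : Tree s D B) {v : X} {i : Fin 2} (hv : v ∈ D i)
    {u : X} (hu : u ∉ B) (hc : (v ∈ B ∧ s i v = u) ∨ (v = u ∧ s i v ∈ B)) :
    Tree s D (insert u B) := by
  obtain ⟨T, g, hT, he⟩ := h
  have hnot : (v, i) ∉ T := by
    intro hm
    obtain ⟨h1, _, h3, _⟩ := he _ hm
    simp only at h1 h3
    rcases hc with ⟨_, h⟩ | ⟨h, _⟩
    · rw [h] at h3
      exact hu h3
    · rw [h] at h1
      exact hu h1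
  rcases hc with ⟨hvB, hs⟩ | ⟨hvu, hs⟩
  · refine ⟨Insert.insert (v, i) T, Function.update g u (FreeGroup.of i * g v), ?_, ?_⟩
    · rw [Finset.card_insert_of_notMem hnot, Finset.card_insert_of_notMem hu, hT]
    · intro e hmem
      rw [Finset.mem_insert] at hmem
      rcases hmem with rfl | hmem
      · have hne : v ≠ u := fun h => hu (h ▸ hvB)
        simp only
        rw [hs]
        refine ⟨Finset.mem_insert_of_mem hvB, hv, Finset.mem_insert_self _ _, ?_⟩
        rw [Function.update_self, Function.update_of_ne hne]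
      · obtain ⟨h1, h2, h3, h4⟩ := he e hmem
        have hne1 : e.1 ≠ u := fun h => hu (h ▸ h1)
        have hne2 : s e.2 e.1 ≠ u := fun h => hu (h ▸ h3)
        refine ⟨Finset.mem_insert_of_mem h1, h2, Finset.mem_insert_of_mem h3, ?_⟩
        rw [Function.update_of_ne hne1, Function.update_of_ne hne2, h4]
  · subst hvu
    refine ⟨Insert.insert (v, i) T,
      Function.update g v ((FreeGroup.of i)⁻¹ * g (s i v)), ?_, ?_⟩
    · rw [Finset.card_insert_of_notMem hnot, Finset.card_insert_of_notMem hu, hT]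
    · intro e hmem
      rw [Finset.mem_insert] at hmem
      rcases hmem with rfl | hmem
      · have hne : s i v ≠ v := fun h => hu (h ▸ hs)
        simp only
        refine ⟨Finset.mem_insert_self _ _, hv, Finset.mem_insert_of_mem hs, ?_⟩
        rw [Function.update_self, Function.update_of_ne hne, mul_inv_cancel_left]
      · obtain ⟨h1, h2, h3, h4⟩ := he e hmem
        have hne1 : e.1 ≠ v := fun h => hu (h ▸ h1)
        have hne2 : s e.2 e.1 ≠ v := fun h => hu (h ▸ h3)
        refine ⟨Finset.mem_insert_of_mem h1, h2, Finset.mem_insert_of_mem h3, ?_⟩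
        rw [Function.update_of_ne hne1, Function.update_of_ne hne2, h4]

open Classical in
/-- A maximal tree in a finite set. -/
theorem exists_tree (A : Finset X) {y : X} (hy : y ∈ A) :
    ∃ B : Finset X, y ∈ B ∧ B ⊆ A ∧ Tree s D B ∧
      ∀ (v : X) (i : Fin 2), v ∈ D i → v ∈ A → s i v ∈ A → (v ∈ B ↔ s i v ∈ B) := by
  have hne : (A.powerset.filter fun B => y ∈ B ∧ Tree s D B).Nonempty := by
    refine ⟨{y}, ?_⟩
    rw [Finset.mem_filter, Finset.mem_powerset, Finset.singleton_subset_iff]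
    refine ⟨hy, Finset.mem_singleton_self y, ∅, fun _ => 1, by simp, ?_⟩
    intro e he
    simp at he
  obtain ⟨B, hB, hmax⟩ := Finset.exists_max_image _ Finset.card hne
  rw [Finset.mem_filter, Finset.mem_powerset] at hB
  obtain ⟨hBA, hyB, hT⟩ := hB
  have hno : ∀ u ∈ A, u ∉ B → ¬ Tree s D (insert u B) := by
    intro u hu huB hTu
    have h := hmax (insert u B) (by
      rw [Finset.mem_filter, Finset.mem_powerset]
      exact ⟨Finset.insert_subset hu hBA, Finset.mem_insert_of_mem hyB, hTu⟩)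
    rw [Finset.card_insert_of_notMem huB] at h
    omega
  refine ⟨B, hyB, hBA, hT, fun v i hv hvA hsA => ⟨fun h => ?_, fun h => ?_⟩⟩
  · by_contra hc
    exact hno _ hsA hc (Tree.insert s D hT hv hc (Or.inl ⟨h, rfl⟩))
  · by_contra hc
    exact hno _ hvA hc (Tree.insert s D hT hv hc (Or.inr ⟨rfl, h⟩))

open Classical in
/-- The potential of a maximal tree, with at most one edge left. -/
theorem exists_pot (hG : Gen s D) (B : Finset X) {y : X} (hyB : y ∈ B) (hT : Tree s D B) :
    ∃ (g : X → F2) (kap : F2), ∀ (v : X) (i : Fin 2), v ∈ D i → v ∈ B → s i v ∈ B →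
      (g (s i v))⁻¹ * FreeGroup.of i * g v ∈ Subgroup.zpowers kap := by
  obtain ⟨T, g, hc, he⟩ := hT
  set Ed : Finset (X × Fin 2) := (B ×ˢ Finset.univ).filter fun e => e.1 ∈ D e.2 ∧ s e.2 e.1 ∈ B
    with hEd
  have hcard : Ed.card ≤ B.card := by
    refine le_trans ?_ (hG B)
    have h0 : Ed ⊆ ((B.filter fun x => x ∈ D 0 ∧ s 0 x ∈ B).image fun x => (x, (0 : Fin 2))) ∪
        ((B.filter fun x => x ∈ D 1 ∧ s 1 x ∈ B).image fun x => (x, (1 : Fin 2))) := by
      rintro ⟨x, i⟩ hx
      rw [hEd, Finset.mem_filter, Finset.mem_product] at hx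
      obtain ⟨⟨h1, _⟩, h2, h3⟩ := hx
      rw [Finset.mem_union]
      fin_cases i
      · left
        rw [Finset.mem_image]
        exact ⟨x, Finset.mem_filter.2 ⟨h1, h2, h3⟩, rfl⟩
      · right
        rw [Finset.mem_image]
        exact ⟨x, Finset.mem_filter.2 ⟨h1, h2, h3⟩, rfl⟩
    refine (Finset.card_le_card h0).trans ((Finset.card_union_le _ _).trans ?_)
    exact Nat.add_le_add Finset.card_image_le Finset.card_image_le
  have hTE : T ⊆ Ed := by
    intro e hm
    obtain ⟨h1, h2, h3, _⟩ := he e hm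
    rw [hEd, Finset.mem_filter, Finset.mem_product]
    exact ⟨⟨h1, Finset.mem_univ _⟩, h2, h3⟩
  have h1 : (Ed \ T).card ≤ 1 := by
    rw [Finset.card_sdiff_of_subset hTE]
    omega
  haveI : Nonempty (X × Fin 2) := ⟨(y, 0)⟩
  obtain ⟨e0, he0⟩ := Finset.card_le_one_iff_subset_singleton.1 h1
  refine ⟨g, (g (s e0.2 e0.1))⁻¹ * FreeGroup.of e0.2 * g e0.1, fun v i hv hvB hsB => ?_⟩
  by_cases hm : (v, i) ∈ T
  · have h := (he _ hm).2.2.2
    simp only at h
    rw [h]
    have h2 : (FreeGroup.of i * g v)⁻¹ * FreeGroup.of i * g v = 1 := by group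
    rw [h2]
    exact Subgroup.one_mem _
  · have h : (v, i) ∈ Ed \ T := by
      rw [Finset.mem_sdiff, hEd, Finset.mem_filter, Finset.mem_product]
      exact ⟨⟨⟨hvB, Finset.mem_univ _⟩, hv, hsB⟩, hm⟩
    have h2 := he0 h
    rw [Finset.mem_singleton] at h2
    subst h2
    exact Subgroup.mem_zpowers _

/-- The label of a walk. -/
theorem walk (hok : Ok s D) (A B : Finset X) (hBA : B ⊆ A) {y : X} (hyB : y ∈ B)
    (hcl : ∀ (v : X) (i : Fin 2), v ∈ D i → v ∈ A → s i v ∈ A → (v ∈ B ↔ s i v ∈ B))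
    (g : X → F2) (kap : F2) (hg : ∀ (v : X) (i : Fin 2), v ∈ D i → v ∈ B → s i v ∈ B →
      (g (s i v))⁻¹ * FreeGroup.of i * g v ∈ Subgroup.zpowers kap) :
    ∀ L : List (Fin 2 × Bool), (∀ L1, L1 <:+ L → rho s (FreeGroup.mk L1) y ∈ A) →
      rho s (FreeGroup.mk L) y ∈ B ∧
      (g (rho s (FreeGroup.mk L) y))⁻¹ * coc s D (FreeGroup.mk L) y * g y ∈
        Subgroup.zpowers kap := by
  intro L
  induction L with
  | nil =>
    intro _
    have h1 : (FreeGroup.mk [] : F2) = 1 := rfl
    rw [h1, map_one, coc_one, Equiv.Perm.one_apply]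
    refine ⟨hyB, ?_⟩
    have h2 : (g y)⁻¹ * 1 * g y = 1 := by group
    rw [h2]
    exact Subgroup.one_mem _
  | cons l L ih =>
    intro hA
    obtain ⟨h1, h2⟩ := ih fun L1 h => hA L1 (h.trans (List.suffix_cons _ _))
    have h3 := hA (l :: L) (List.suffix_refl _)
    rw [mk_cons, rho_mul_apply] at h3
    rw [mk_cons, rho_mul_apply, coc_mul, hok.coc_ltr]
    set v := rho s (FreeGroup.mk L) y with hv
    set C := coc s D (FreeGroup.mk L) y with hC
    by_cases hx : v ∈ D l.1
    · rw [if_pos hx]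
      obtain ⟨i, b⟩ := l
      simp only at hx
      cases b with
      | true =>
        rw [ltr_true, rho_of] at h3 ⊢
        have h4 : s i v ∈ B := (hcl v i hx (hBA h1) h3).1 h1
        refine ⟨h4, ?_⟩
        have h5 : (g (s i v))⁻¹ * (FreeGroup.of i * C) * g y =
            ((g (s i v))⁻¹ * FreeGroup.of i * g v) * ((g v)⁻¹ * C * g y) := by group
        rw [h5]
        exact Subgroup.mul_mem _ (hg v i hx h1 h4) h2
      | false =>
        have e : rho s (FreeGroup.of i)⁻¹ v = (s i).symm v := by rw [map_inv, rho_of]; rfl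
        rw [ltr_false, e] at h3
        rw [ltr_false, e]
        set u := (s i).symm v with hu
        have e2 : s i u = v := by rw [hu, Equiv.apply_symm_apply]
        have hxu : u ∈ D i := hok.symm_mem.2 hx
        have h4 : u ∈ B := (hcl u i hxu h3 (by rw [e2]; exact hBA h1)).2 (by rw [e2]; exact h1)
        refine ⟨h4, ?_⟩
        have h6 := hg u i hxu h4 (by rw [e2]; exact h1)
        rw [e2] at h6
        have h5 : (g u)⁻¹ * ((FreeGroup.of i)⁻¹ * C) * g y =
            ((g v)⁻¹ * FreeGroup.of i * g u)⁻¹ * ((g v)⁻¹ * C * g y) := by group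
        rw [h5]
        exact Subgroup.mul_mem _ (Subgroup.inv_mem _ h6) h2
    · rw [if_neg hx, one_mul, hok.rho_ltr_out l hx]
      exact ⟨h1, h2⟩

end

/-- Labels of closed walks commute when every finite subgraph has at most as many edges as
vertices. -/
theorem done : S_UC := by
  classical
  intro X s D hok hG y W W' hW hW'
  obtain ⟨L, rfl⟩ : ∃ L, FreeGroup.mk L = W := ⟨W.toWord, FreeGroup.mk_toWord⟩
  obtain ⟨L', rfl⟩ : ∃ L', FreeGroup.mk L' = W' := ⟨W'.toWord, FreeGroup.mk_toWord⟩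
  let A : Finset X := (L.tails.map fun L1 => rho s (FreeGroup.mk L1) y).toFinset ∪
    (L'.tails.map fun L1 => rho s (FreeGroup.mk L1) y).toFinset
  have hA : ∀ L1, L1 <:+ L → rho s (FreeGroup.mk L1) y ∈ A := by
    intro L1 h
    refine Finset.mem_union_left _ ?_
    rw [List.mem_toFinset, List.mem_map]
    exact ⟨L1, (List.mem_tails _ _).2 h, rfl⟩
  have hA' : ∀ L1, L1 <:+ L' → rho s (FreeGroup.mk L1) y ∈ A := by
    intro L1 h
    refine Finset.mem_union_right _ ?_
    rw [List.mem_toFinset, List.mem_map]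
    exact ⟨L1, (List.mem_tails _ _).2 h, rfl⟩
  have hyA : y ∈ A := by
    have h := hA [] (List.nil_suffix)
    have h1 : (FreeGroup.mk [] : F2) = 1 := rfl
    rwa [h1, map_one, Equiv.Perm.one_apply] at h
  obtain ⟨B, hyB, hBA, hT, hcl⟩ := exists_tree s D A hyA
  obtain ⟨g, kap, hg⟩ := exists_pot s D hG B hyB hT
  have h1 := (walk s D hok A B hBA hyB hcl g kap hg L hA).2
  have h2 := (walk s D hok A B hBA hyB hcl g kap hg L' hA').2
  rw [hW] at h1
  rw [hW'] at h2
  obtain ⟨m, hm⟩ := Subgroup.mem_zpowers_iff.1 h1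
  obtain ⟨m', hm'⟩ := Subgroup.mem_zpowers_iff.1 h2
  set C := coc s D (FreeGroup.mk L) y
  set C' := coc s D (FreeGroup.mk L') y
  have e1 : C = g y * kap ^ m * (g y)⁻¹ := by rw [hm]; group
  have e2 : C' = g y * kap ^ m' * (g y)⁻¹ := by rw [hm']; group
  rw [e1, e2]
  have e3 : kap ^ m * kap ^ m' = kap ^ m' * kap ^ m := by rw [← zpow_add, ← zpow_add, add_comm]
  calc g y * kap ^ m * (g y)⁻¹ * (g y * kap ^ m' * (g y)⁻¹)
      = g y * (kap ^ m * kap ^ m') * (g y)⁻¹ := by group
    _ = g y * (kap ^ m' * kap ^ m) * (g y)⁻¹ := by rw [e3]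
    _ = g y * kap ^ m' * (g y)⁻¹ * (g y * kap ^ m * (g y)⁻¹) := by group

end Pool.Agent.Y151.CG
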